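import Pool.Agent.Helper54.UN.St

/-!
# Project UN, part (C), module AVD: no vertex in an open wall
-/

set_option autoImplicit false

noncomputable section

namespace Pool.Agent.Helper64.UNC

open Set Filter Topology Pool.Agent.Helper71.UN Pool.Agent.Helper54.UN

theorem im_comb (A B : ℂ) (t : ℝ) :
    (A + t * (B - A)).im = (1 - t) * A.im + t * B.im := by
  simp
  ring

theorem do_comb (A B : ℂ) (t : ℝ) :
    dt om (A + t * (B - A)) = (1 - t) * dt om A + t * dt om B := by
  simp [dt_eq]
  ring

theorem pos_comb {x y t : ℝ} (h0 : 0 < t) (h1 : t < 1) (hx : 0 ≤ x) (hy : 0 ≤ y)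
    (h : 0 < x ∨ 0 < y) : 0 < (1 - t) * x + t * y := by
  have h2 : 0 < 1 - t := by linarith
  rcases h with h | h
  · have := mul_pos h2 h
    have := mul_nonneg h0.le hy
    linarith
  · have := mul_nonneg h2.le hx
    have := mul_pos h0 h
    linarith

theorem neg_comb {x y t : ℝ} (h0 : 0 < t) (h1 : t < 1) (hx : x ≤ 0) (hy : y ≤ 0)
    (h : x < 0 ∨ y < 0) : (1 - t) * x + t * y < 0 := by
  have h2 := pos_comb (x := -x) (y := -y) h0 h1 (by linarith) (by linarith)
    (h.imp (fun h => by linarith) (fun h => by linarith))
  linarith

theorem omi : 0 < om.im := by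
  rw [om_im]
  positivity

theorem do_om : dt om om = 0 := by rw [dt_eq]; ring

theorem do_one : dt om 1 < 0 := by
  have h := omi
  rw [dt_eq]
  simp only [Complex.one_im, Complex.one_re]
  linarith

theorem do_neg_one : 0 < dt om (-1) := by
  have h := omi
  rw [dt_eq]
  simp only [Complex.neg_im, Complex.neg_re, Complex.one_im, Complex.one_re]
  linarith

/-- an auxiliary statement: the functionals on a wall -/
theorem wall {a b τ A B v : ℂ} {t : ℝ} (h : A + t * (B - A) = v) :
    (1 - t) * A.im + t * B.im = v.im ∧ (1 - t) * dt om A + t * dt om B = dt om v ∧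
      (1 - t) * lf a b A + t * lf a b B = lf a b v ∧
      (1 - t) * lf τ a A + t * lf τ a B = lf τ a v ∧
      (1 - t) * lf τ b A + t * lf τ b B = lf τ b v ∧
      (1 - t) * lf a om A + t * lf a om B = lf a om v ∧
      (1 - t) * lf b om A + t * lf b om B = lf b om v := by
  subst h
  exact ⟨(im_comb _ _ _).symm, (do_comb _ _ _).symm, (lf_comb _ _ _ _ _).symm,
    (lf_comb _ _ _ _ _).symm, (lf_comb _ _ _ _ _).symm, (lf_comb _ _ _ _ _).symm,
    (lf_comb _ _ _ _ _).symm⟩

theorem hAVD : StAVD := by
  intro a b τ g hG
  have gda : lf a b a = 0 := lf_start _ _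
  have gdb : lf a b b = 0 := lf_end _ _
  have ha0 : lf τ a a = 0 := lf_end _ _
  have ht0 : lf τ a τ = 0 := lf_start _ _
  have ht3 : lf τ b τ = 0 := lf_start _ _
  have hb3 : lf τ b b = 0 := lf_end _ _
  have hb2 : lf b om b = 0 := lf_start _ _
  have ho2 : lf b om om = 0 := lf_end _ _
  have ha1 : lf a om a = 0 := lf_start _ _
  have ho1 : lf a om om = 0 := lf_end _ _
  have hi := omi
  have h1i : (1 : ℂ).im = 0 := Complex.one_im
  have hn1i : (-1 : ℂ).im = 0 := by simp
  have d0 := do_om
  have d1 := do_one
  have dn := do_neg_one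
  have ia := hG.ia
  have ib := hG.ib
  have it := hG.it
  have ig := hG.ig
  have oa := hG.oa
  have ob := hG.ob
  have ot := hG.ot
  have og := hG.og
  have gdv := hG.gdv
  have gdo := hG.gdo
  have gdt := hG.gdt
  have gdg := hG.gdg
  have g0b := hG.g0b
  have g0o := hG.g0o
  have g0g := hG.g0g
  have g3g := hG.g3g
  have f1t := hG.f1t
  have f2t := hG.f2t
  have f2g := hG.f2g
  constructor
  · intro i t h0 h1 v hv heq
    simp only [Set.mem_insert_iff, Set.mem_singleton_iff] at hv
    fin_cases i
    · have heq' : τ + t * (a - τ) = v := heq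
      obtain ⟨e1, e2, e3, e4, e5, e6, e7⟩ := wall (a := a) (b := b) (τ := τ) heq'
      have w1 := pos_comb h0 h1 it.le ia.le (Or.inl it)
      have w2 := neg_comb h0 h1 ot.le oa.le (Or.inl ot)
      have w3 := pos_comb h0 h1 gdt.le gda.ge (Or.inl gdt)
      rw [ht0, ha0] at e4
      rw [e1] at w1
      rw [e2] at w2
      rw [e3] at w3
      rw [gda] at e3
      rcases hv with rfl | rfl | rfl | rfl | rfl | rfl
      · linarith
      · linarith
      · linarith
      · linarith
      · nlinarith
      · linarith
    · have heq' : om + t * (a - om) = v := heq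
      obtain ⟨e1, e2, e3, e4, e5, e6, e7⟩ := wall (a := a) (b := b) (τ := τ) heq'
      have w1 := pos_comb h0 h1 hi.le ia.le (Or.inl hi)
      have w2 := neg_comb h0 h1 d0.le oa.le (Or.inr oa)
      have w3 := pos_comb h0 h1 gdo.le gda.ge (Or.inl gdo)
      have w4 := neg_comb h0 h1 g0o.le ha0.le (Or.inl g0o)
      rw [ho1, ha1] at e6
      rw [e1] at w1
      rw [e2] at w2
      rw [e3] at w3
      rw [e4] at w4
      rcases hv with rfl | rfl | rfl | rfl | rfl | rfl
      · linarith
      · linarith
      · linarith
      · linarith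
      · linarith
      · linarith
    · have heq' : om + t * (b - om) = v := heq
      obtain ⟨e1, e2, e3, e4, e5, e6, e7⟩ := wall (a := a) (b := b) (τ := τ) heq'
      have w1 := pos_comb h0 h1 hi.le ib.le (Or.inl hi)
      have w2 := neg_comb h0 h1 d0.le ob.le (Or.inr ob)
      have w3 := pos_comb h0 h1 gdo.le gdb.ge (Or.inl gdo)
      rw [ho2, hb2] at e7
      rw [e1] at w1
      rw [e2] at w2
      rw [e3] at w3
      rcases hv with rfl | rfl | rfl | rfl | rfl | rfl
      · linarith
      · linarith
      · linarith
      · linarith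
      · linarith
      · linarith
    · have heq' : τ + t * (b - τ) = v := heq
      obtain ⟨e1, e2, e3, e4, e5, e6, e7⟩ := wall (a := a) (b := b) (τ := τ) heq'
      have w1 := pos_comb h0 h1 it.le ib.le (Or.inl it)
      have w2 := neg_comb h0 h1 ot.le ob.le (Or.inl ot)
      have w3 := pos_comb h0 h1 gdt.le gdb.ge (Or.inl gdt)
      rw [ht3, hb3] at e5
      rw [e1] at w1
      rw [e2] at w2
      rw [e3] at w3
      rw [gdb] at e3
      rcases hv with rfl | rfl | rfl | rfl | rfl | rfl
      · linarith
      · linarith
      · linarith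
      · linarith
      · nlinarith
      · linarith
    · have heq' : 1 + t * (b - 1) = v := heq
      obtain ⟨e1, e2, e3, e4, e5, e6, e7⟩ := wall (a := a) (b := b) (τ := τ) heq'
      have w1 := pos_comb h0 h1 h1i.ge ib.le (Or.inr ib)
      have w2 := neg_comb h0 h1 d1.le ob.le (Or.inl d1)
      have w3 := neg_comb h0 h1 gdv.le gdb.le (Or.inl gdv)
      rw [e1] at w1
      rw [e2] at w2
      rw [e3] at w3
      rcases hv with rfl | rfl | rfl | rfl | rfl | rfl
      · linarith
      · linarith
      · linarith
      · linarith
      · linarith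
      · linarith
    · have heq' : 1 + t * (a - 1) = v := heq
      obtain ⟨e1, e2, e3, e4, e5, e6, e7⟩ := wall (a := a) (b := b) (τ := τ) heq'
      have w1 := pos_comb h0 h1 h1i.ge ia.le (Or.inr ia)
      have w2 := neg_comb h0 h1 d1.le oa.le (Or.inl d1)
      have w3 := neg_comb h0 h1 gdv.le gda.le (Or.inl gdv)
      rw [e1] at w1
      rw [e2] at w2
      rw [e3] at w3
      rcases hv with rfl | rfl | rfl | rfl | rfl | rfl
      · linarith
      · linarith
      · linarith
      · linarith
      · linarith
      · linarith
    · have heq' : om + t * (-1 - om) = v := heq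
      obtain ⟨e1, e2, e3, e4, e5, e6, e7⟩ := wall (a := a) (b := b) (τ := τ) heq'
      have w1 := pos_comb h0 h1 hi.le hn1i.ge (Or.inl hi)
      have w2 := pos_comb h0 h1 d0.ge dn.le (Or.inr dn)
      rw [e1] at w1
      rw [e2] at w2
      rcases hv with rfl | rfl | rfl | rfl | rfl | rfl
      · linarith
      · linarith
      · linarith
      · linarith
      · linarith
      · linarith
  · have n01 : (1 : ℂ) ≠ om := fun h => by rw [h] at h1i; linarith
    have n02 : (1 : ℂ) ≠ a := fun h => by rw [h] at h1i; linarith
    have n03 : (1 : ℂ) ≠ b := fun h => by rw [h] at h1i; linarith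
    have n04 : (1 : ℂ) ≠ τ := fun h => by rw [h] at h1i; linarith
    have n05 : (1 : ℂ) ≠ g := fun h => by rw [h] at h1i; linarith
    have n12 : om ≠ a := fun h => by rw [← h] at oa; linarith
    have n13 : om ≠ b := fun h => by rw [← h] at ob; linarith
    have n14 : om ≠ τ := fun h => by rw [← h] at ot; linarith
    have n15 : om ≠ g := fun h => by rw [← h] at og; linarith
    have n23 : a ≠ b := fun h => by rw [← h] at g0b; linarith
    have n24 : a ≠ τ := fun h => by
      have h2 := congrArg (lf a b) h
      linarith
    have n25 : a ≠ g := fun h => by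
      have h2 := congrArg (lf a b) h
      linarith
    have n34 : b ≠ τ := fun h => by
      have h2 := congrArg (lf a b) h
      linarith
    have n35 : b ≠ g := fun h => by
      have h2 := congrArg (lf a b) h
      linarith
    have n45 : τ ≠ g := fun h => by
      have h2 := congrArg (lf τ a) h
      linarith
    have hlt : ∀ i j : Fin 6, i < j →
        (![1, om, a, b, τ, g] : Fin 6 → ℂ) i ≠ (![1, om, a, b, τ, g] : Fin 6 → ℂ) j := by
      intro i j hij
      fin_cases i <;> fin_cases j <;>
        first
          | exact absurd hij (by decide)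
          | exact n01
          | exact n02
          | exact n03
          | exact n04
          | exact n05
          | exact n12
          | exact n13
          | exact n14
          | exact n15
          | exact n23
          | exact n24
          | exact n25
          | exact n34
          | exact n35
          | exact n45
    intro i j hij
    rcases lt_trichotomy i j with h | h | h
    · exact absurd hij (hlt i j h)
    · exact h
    · exact absurd hij.symm (hlt j i h)

end Pool.Agent.Helper64.UNC
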